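import Pool.Agent.Helper15.CX.Loc
import Pool.Agent.Helper62.VX.Stm

/-!
# The formal root, and the chain rule
-/

set_option autoImplicit false

namespace Pool.Agent.Helper82.VX

open Polynomial

section root

variable {k : Type} [Field k]

/-- the approximations of the root -/
noncomputable def app (F : (PowerSeries k)[X]) (x₀ : k) : ℕ → PowerSeries k
  | 0 => PowerSeries.C x₀
  | n + 1 => app F x₀ n + PowerSeries.C (-(PowerSeries.coeff (n + 1) (F.eval (app F x₀ n))) /
      PowerSeries.constantCoeff ((derivative F).eval (PowerSeries.C x₀))) * PowerSeries.X ^ (n + 1)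

theorem app_const (F : (PowerSeries k)[X]) (x₀ : k) (n : ℕ) :
    PowerSeries.constantCoeff (app F x₀ n) = x₀ := by
  induction n with
  | zero => simp [app]
  | succ n ih => simp [app, ih]

theorem const_eval (F : (PowerSeries k)[X]) (s : PowerSeries k) :
    PowerSeries.constantCoeff (F.eval s) =
      (F.map PowerSeries.constantCoeff).eval (PowerSeries.constantCoeff s) := by
  rw [eval_map_apply]

theorem app_dvd (F : (PowerSeries k)[X]) (x₀ : k)
    (h0 : PowerSeries.constantCoeff (F.eval (PowerSeries.C x₀)) = 0)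
    (h1 : PowerSeries.constantCoeff ((derivative F).eval (PowerSeries.C x₀)) ≠ 0) (n : ℕ) :
    (PowerSeries.X : PowerSeries k) ^ (n + 1) ∣ F.eval (app F x₀ n) := by
  induction n with
  | zero =>
    rw [zero_add, pow_one, PowerSeries.X_dvd_iff]
    exact h0
  | succ n ih =>
    obtain ⟨u, hu⟩ := ih
    set d := PowerSeries.constantCoeff ((derivative F).eval (PowerSeries.C x₀)) with hd
    set c : k := -(PowerSeries.coeff (n + 1) (F.eval (app F x₀ n))) / d with hc
    have hstep : app F x₀ (n + 1) = app F x₀ n + PowerSeries.C c * PowerSeries.X ^ (n + 1) := rfl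
    obtain ⟨q, hq⟩ := Polynomial.binomExpansion F (app F x₀ n)
      (PowerSeries.C c * PowerSeries.X ^ (n + 1))
    have hu0 : PowerSeries.coeff (n + 1) (F.eval (app F x₀ n)) = PowerSeries.constantCoeff u := by
      have h5 := PowerSeries.coeff_X_pow_mul u (n + 1) 0
      rw [zero_add] at h5
      rw [hu, h5, PowerSeries.coeff_zero_eq_constantCoeff_apply]
    have hdn : PowerSeries.constantCoeff ((derivative F).eval (app F x₀ n)) = d := by
      rw [const_eval, app_const, hd, const_eval]
      simp
    rw [hstep, hq]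
    have h2 : (PowerSeries.X : PowerSeries k) ∣ u + (derivative F).eval (app F x₀ n) *
        PowerSeries.C c + q * PowerSeries.C c ^ 2 * PowerSeries.X ^ (n + 1) := by
      rw [PowerSeries.X_dvd_iff]
      simp only [map_add, map_mul, hdn, PowerSeries.constantCoeff_C, map_pow,
        PowerSeries.constantCoeff_X]
      rw [← hu0, hc]
      field_simp
      simp
    obtain ⟨v, hv⟩ := h2
    refine ⟨v, ?_⟩
    rw [hu, pow_succ (PowerSeries.X : PowerSeries k) (n + 1)]
    linear_combination (PowerSeries.X : PowerSeries k) ^ (n + 1) * hv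

theorem app_coeff (F : (PowerSeries k)[X]) (x₀ : k) (n m : ℕ) (h : n ≤ m) :
    PowerSeries.coeff n (app F x₀ m) = PowerSeries.coeff n (app F x₀ n) := by
  induction m, h using Nat.le_induction with
  | base => rfl
  | succ m hm ih =>
    have hstep : app F x₀ (m + 1) = app F x₀ m + PowerSeries.C (-(PowerSeries.coeff (m + 1)
      (F.eval (app F x₀ m))) / PowerSeries.constantCoeff ((derivative F).eval
        (PowerSeries.C x₀))) * PowerSeries.X ^ (m + 1) := rfl
    rw [hstep, map_add, ih, PowerSeries.coeff_C_mul, PowerSeries.coeff_X_pow, if_neg (by omega)]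
    simp

/-- **the formal root** -/
theorem exists_root (F : (PowerSeries k)[X]) (x₀ : k)
    (h0 : PowerSeries.constantCoeff (F.eval (PowerSeries.C x₀)) = 0)
    (h1 : PowerSeries.constantCoeff ((derivative F).eval (PowerSeries.C x₀)) ≠ 0) :
    ∃ s : PowerSeries k, PowerSeries.constantCoeff s = x₀ ∧ F.eval s = 0 := by
  set t : PowerSeries k := PowerSeries.mk fun n => PowerSeries.coeff n (app F x₀ n) with ht
  have hdiv : ∀ n : ℕ, (PowerSeries.X : PowerSeries k) ^ (n + 1) ∣ t - app F x₀ n := by
    intro n
    rw [PowerSeries.X_pow_dvd_iff]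
    intro m hm
    rw [map_sub, ht, PowerSeries.coeff_mk, app_coeff F x₀ m n (by omega), sub_self]
  refine ⟨t, ?_, ?_⟩
  · rw [ht, ← PowerSeries.coeff_zero_eq_constantCoeff_apply, PowerSeries.coeff_mk,
      PowerSeries.coeff_zero_eq_constantCoeff_apply, app_const]
  · have h2 : ∀ n : ℕ, (PowerSeries.X : PowerSeries k) ^ (n + 1) ∣ F.eval t := by
      intro n
      have h3 := (hdiv n).trans (Polynomial.sub_dvd_eval_sub t (app F x₀ n) F)
      have h4 := dvd_add h3 (app_dvd F x₀ h0 h1 n)
      rwa [sub_add_cancel] at h4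
    ext n
    rw [map_zero]
    exact PowerSeries.X_pow_dvd_iff.1 (h2 n) n (Nat.lt_succ_self n)

/-- the order -/
theorem exists_order (f : PowerSeries k) (hf : f ≠ 0) :
    ∃ (n : ℕ) (u : PowerSeries k), f = PowerSeries.X ^ n * u ∧ PowerSeries.constantCoeff u ≠ 0 :=
  ⟨_, _, PowerSeries.X_pow_order_mul_divXPowOrder.symm,
    fun h => hf (PowerSeries.constantCoeff_divXPowOrder_eq_zero_iff.1 h)⟩

/-- the derivative of `X ^ n u` -/
theorem X_mul_deriv (n : ℕ) (u : PowerSeries k) :
    PowerSeries.X * PowerSeries.derivative k (PowerSeries.X ^ n * u) =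
      PowerSeries.X ^ n * ((n : PowerSeries k) * u + PowerSeries.X * PowerSeries.derivative k u) := by
  rw [Derivation.leibniz, Derivation.leibniz_pow, PowerSeries.derivative_X]
  rcases Nat.eq_zero_or_pos n with h | h
  · subst h
    simp
  · obtain ⟨m, rfl⟩ : ∃ m, n = m + 1 := ⟨n - 1, by omega⟩
    simp only [smul_eq_mul, nsmul_eq_mul, Nat.add_sub_cancel, mul_one]
    ring

end root

section ev

variable {A : Type} [CommRing A] [IsDomain A]

/-- the expansion at `t₀` -/
noncomputable def TT (t₀ : A) : A[X] →+* PowerSeries (FractionRing A) :=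
  Polynomial.eval₂RingHom ((PowerSeries.C (R := FractionRing A)).comp
    (algebraMap A (FractionRing A)))
    (PowerSeries.X + PowerSeries.C (algebraMap A (FractionRing A) t₀))

/-- the value at `x = s`, `t = t₀ + X` -/
noncomputable def Ev (t₀ : A) (s : PowerSeries (FractionRing A)) :
    A[X][X] →+* PowerSeries (FractionRing A) :=
  Polynomial.eval₂RingHom (TT t₀) s

theorem TT_X_sub (t₀ : A) : TT t₀ (X - C t₀) = PowerSeries.X := by
  simp [TT]

theorem TT_const (t₀ : A) (q : A[X]) :
    PowerSeries.constantCoeff (TT t₀ q) = algebraMap A (FractionRing A) (q.eval t₀) := by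
  have h : (PowerSeries.constantCoeff (R := FractionRing A)).comp (TT t₀) =
      (algebraMap A (FractionRing A)).comp (evalRingHom t₀) := by
    refine Polynomial.ringHom_ext' ?_ ?_
    · ext a
      simp [TT]
    · simp [TT]
  exact DFunLike.congr_fun h q

theorem TT_ne_zero (t₀ : A) (q : A[X]) (hq : q ≠ 0) : TT t₀ q ≠ 0 := by
  obtain ⟨q₁, h1, h2⟩ := Polynomial.exists_eq_pow_rootMultiplicity_mul_and_not_dvd q hq t₀
  rw [h1, map_mul, map_pow, TT_X_sub]
  refine mul_ne_zero (pow_ne_zero _ PowerSeries.X_ne_zero) fun h3 => h2 ?_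
  rw [dvd_iff_isRoot, IsRoot.def]
  have h4 := TT_const t₀ q₁
  rw [h3, map_zero] at h4
  exact IsFractionRing.injective A (FractionRing A) (by rw [← h4, map_zero])

theorem Ev_C (t₀ : A) (s : PowerSeries (FractionRing A)) (q : A[X]) : Ev t₀ s (C q) = TT t₀ q := by
  simp [Ev]

theorem Ev_X (t₀ : A) (s : PowerSeries (FractionRing A)) : Ev t₀ s X = s := by
  simp [Ev]

theorem Ev_const (t₀ x₀ : A) (s : PowerSeries (FractionRing A))
    (hs : PowerSeries.constantCoeff s = algebraMap A (FractionRing A) x₀) (Q : A[X][X]) :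
    PowerSeries.constantCoeff (Ev t₀ s Q) =
      algebraMap A (FractionRing A) ((Q.map (evalRingHom t₀)).eval x₀) := by
  have h : (PowerSeries.constantCoeff (R := FractionRing A)).comp (Ev t₀ s) =
      (algebraMap A (FractionRing A)).comp ((evalRingHom x₀).comp
        (mapRingHom (evalRingHom t₀))) := by
    refine Polynomial.ringHom_ext' ?_ ?_
    · refine RingHom.ext fun q => ?_
      simp only [RingHom.comp_apply, Ev_C, TT_const]
      simp
    · simp only [RingHom.comp_apply, Ev_X, hs]
      simp
  exact DFunLike.congr_fun h Q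

theorem TT_deriv (t₀ : A) (q : A[X]) :
    PowerSeries.derivative (FractionRing A) (TT t₀ q) = TT t₀ (derivative q) := by
  induction q using Polynomial.induction_on' with
  | add p q hp hq => rw [map_add, map_add, hp, hq, derivative_add, map_add]
  | monomial n c =>
    have h1 : ∀ (i : ℕ) (e : A), TT t₀ (monomial i e) =
        PowerSeries.C (algebraMap A (FractionRing A) e) *
          (PowerSeries.X + PowerSeries.C (algebraMap A (FractionRing A) t₀)) ^ i := by
      intro i e
      simp [TT]
    rw [derivative_monomial, h1, h1, Derivation.leibniz, Derivation.leibniz_pow, map_add,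
      PowerSeries.derivative_X, PowerSeries.derivative_C, PowerSeries.derivative_C]
    simp only [smul_eq_mul, nsmul_eq_mul, map_mul, map_natCast]
    ring

/-- **the chain rule** -/
theorem Ev_deriv (t₀ : A) (s : PowerSeries (FractionRing A)) (Q : A[X][X]) :
    PowerSeries.derivative (FractionRing A) (Ev t₀ s Q) =
      Ev t₀ s (derivative Q) * PowerSeries.derivative (FractionRing A) s +
        Ev t₀ s (Pool.Agent.Helper62.BW.dt Q) := by
  induction Q using Polynomial.induction_on' with
  | add p q hp hq =>
    rw [map_add, map_add, hp, hq, derivative_add, map_add, Pool.Agent.Helper15.CX.dt_add, map_add]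
    ring
  | monomial n c =>
    have h1 : ∀ (i : ℕ) (e : A[X]), Ev t₀ s (monomial i e) = TT t₀ e * s ^ i := by
      intro i e
      simp [Ev]
    rw [Pool.Agent.Helper15.CX.dt_monomial, derivative_monomial, h1, h1, h1, Derivation.leibniz,
      Derivation.leibniz_pow, TT_deriv]
    simp only [smul_eq_mul, nsmul_eq_mul, map_mul, map_natCast]
    ring

end ev

end Pool.Agent.Helper82.VX
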