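import Pool.Agent.Helper82.VX.Root

/-!
# The local structure at the node of arbitrary thickness (package V_LocC)
-/

set_option autoImplicit false

namespace Pool.Agent.Helper82.VX

open Polynomial
open Pool.Agent.Helper62.BM Pool.Agent.Helper62.BW Pool.Agent.Helper62.BX Pool.Agent.Helper62.CX
open Pool.Agent.Helper62.VX
open Pool.Agent.Helper15.CX

section

variable {A : Type} [CommRing A] [IsDomain A] [CharZero A]

omit [CharZero A] in
/-- the simple root of `Lam(a', b')` at the node -/
theorem exists_root_Lam (m r : ℕ) (hrm : r < m) (a b : A[X][X]) (t₀ x₀ : A) (a₁ b₁ : A[X])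
    (hm0 : (m : A) ≠ 0)
    (ha0 : a.map (evalRingHom t₀) = (X - C x₀) * a₁)
    (hb0 : b.map (evalRingHom t₀) = (X - C x₀) * b₁) (hne : (a₁ * b₁).eval x₀ ≠ 0) :
    ∃ s : PowerSeries (FractionRing A),
      PowerSeries.constantCoeff s = algebraMap A (FractionRing A) x₀ ∧
      Ev t₀ s (Lam m r a b (derivative a) (derivative b)) = 0 := by
  set φ := algebraMap A (FractionRing A) with hφ
  have hinj : Function.Injective φ := IsFractionRing.injective A (FractionRing A)
  set Lx := Lam m r a b (derivative a) (derivative b) with hLx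
  have hmr : ((m - r : ℕ) : A) = m - r := by rw [Nat.cast_sub hrm.le]
  have hev : ∀ (s : PowerSeries (FractionRing A)) (Q : A[X][X]), (Q.map (TT t₀)).eval s = Ev t₀ s Q := by
    intro s Q
    rw [eval_map]
    rfl
  have hC : PowerSeries.constantCoeff (PowerSeries.C (φ x₀)) = φ x₀ := by simp
  obtain ⟨s, h1, h2⟩ := exists_root (Lx.map (TT t₀)) (φ x₀) (by
      rw [hev, Ev_const t₀ x₀ _ hC, hLx]
      simp only [Lam, Polynomial.map_add, Polynomial.map_mul, Polynomial.map_natCast, ha0, hb0]
      simp)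
    (by
      rw [derivative_map, hev, Ev_const t₀ x₀ _ hC, ← derivative_map, hLx]
      simp only [Lam, Polynomial.map_add, Polynomial.map_mul, Polynomial.map_natCast, ha0, hb0,
        ← derivative_map]
      intro h
      have h3 := hinj (h.trans (map_zero _).symm)
      simp only [derivative_mul, derivative_add, derivative_sub, derivative_X, derivative_C,
        derivative_natCast, eval_add, eval_mul, eval_sub, eval_X, eval_C, eval_natCast, sub_self,
        sub_zero, one_mul, zero_mul, add_zero, zero_add, mul_zero, eval_one, mul_one,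
        eval_zero, hmr] at h3
      rw [eval_mul] at hne
      refine mul_ne_zero hm0 hne ?_
      rw [← h3]
      ring)
  exact ⟨s, h1, by rw [← hev]; exact h2⟩

/-- **the value of `P` at the node**, when `(t - t₀) ^ 2` divides the right side -/
theorem value_zero (m r : ℕ) (hrm : r < m) (a b : A[X][X]) (t₀ x₀ : A) (a₁ b₁ : A[X])
    (hm0 : (m : A) ≠ 0) (ha0 : a.map (evalRingHom t₀) = (X - C x₀) * a₁)
    (hb0 : b.map (evalRingHom t₀) = (X - C x₀) * b₁) (hne : (a₁ * b₁).eval x₀ ≠ 0)
    (u v : A[X][X]) (ρ : A[X]) (hρ : ρ ≠ 0)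
    (huv : u * (a * b) + v * Lam m r a b (derivative a) (derivative b) = C ρ)
    (l : ℕ) (e : A[X]) (P S : A[X][X])
    (h : (m : A[X][X]) * P * (a * b) + S * Lam m r a b (derivative a) (derivative b) =
      Polynomial.C ((X - Polynomial.C t₀) ^ 2 * e) * X ^ l * Lam m r a b (dt a) (dt b)) :
    (P.map (evalRingHom t₀)).eval x₀ = 0 := by
  set φ := algebraMap A (FractionRing A) with hφ
  have hinj : Function.Injective φ := IsFractionRing.injective A (FractionRing A)
  obtain ⟨s, hs, hs0⟩ := exists_root_Lam m r hrm a b t₀ x₀ a₁ b₁ hm0 ha0 hb0 hne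
  set D := PowerSeries.derivative (FractionRing A) with hD
  -- the two functions
  have hab : Ev t₀ s a * Ev t₀ s b ≠ 0 := by
    intro h0
    have h1 := congrArg (Ev t₀ s) huv
    rw [map_add, map_mul, map_mul, map_mul, hs0, h0, mul_zero, mul_zero, add_zero, Ev_C] at h1
    exact TT_ne_zero t₀ ρ hρ h1.symm
  have hda : D (Ev t₀ s a) = Ev t₀ s (derivative a) * D s + Ev t₀ s (dt a) := Ev_deriv t₀ s a
  have hdb : D (Ev t₀ s b) = Ev t₀ s (derivative b) * D s + Ev t₀ s (dt b) := Ev_deriv t₀ s b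
  have hL : (r : PowerSeries (FractionRing A)) * D (Ev t₀ s a) * Ev t₀ s b +
      ((m - r : ℕ) : PowerSeries (FractionRing A)) * Ev t₀ s a * D (Ev t₀ s b) =
      Ev t₀ s (Lam m r a b (dt a) (dt b)) := by
    have h1 : Ev t₀ s (Lam m r a b (derivative a) (derivative b)) * D s = 0 := by
      rw [hs0, zero_mul]
    rw [hda, hdb]
    simp only [Lam, map_add, map_mul, map_natCast] at h1 ⊢
    linear_combination h1
  have hrel := congrArg (Ev t₀ s) h
  rw [map_add, map_mul (Ev t₀ s) S, hs0, mul_zero, add_zero, map_mul, map_mul, map_natCast,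
    map_mul (Ev t₀ s) a b, map_mul, map_mul, ← hL, Ev_C, map_pow, Ev_X, map_mul (TT t₀), map_pow,
    TT_X_sub] at hrel
  obtain ⟨μ, α, hα, hα0⟩ := exists_order _ (left_ne_zero_of_mul hab)
  obtain ⟨ν, β, hβ, hβ0⟩ := exists_order _ (right_ne_zero_of_mul hab)
  have hXa := X_mul_deriv μ α
  have hXb := X_mul_deriv ν β
  rw [← hα] at hXa
  rw [← hβ] at hXb
  set R : PowerSeries (FractionRing A) := TT t₀ e * s ^ l *
    ((r : PowerSeries (FractionRing A)) * ((μ : PowerSeries (FractionRing A)) * α +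
      PowerSeries.X * D α) * β + ((m - r : ℕ) : PowerSeries (FractionRing A)) * α *
      ((ν : PowerSeries (FractionRing A)) * β + PowerSeries.X * D β)) with hR
  have hkey : (PowerSeries.X : PowerSeries (FractionRing A)) ^ (μ + ν) *
      ((m : PowerSeries (FractionRing A)) * Ev t₀ s P * (α * β) - PowerSeries.X * R) = 0 := by
    have e1 : (PowerSeries.X : PowerSeries (FractionRing A)) ^ (μ + ν) *
        ((m : PowerSeries (FractionRing A)) * Ev t₀ s P * (α * β)) =
        (m : PowerSeries (FractionRing A)) * Ev t₀ s P * (Ev t₀ s a * Ev t₀ s b) := by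
      rw [hα, hβ]
      ring
    have e2 : (PowerSeries.X : PowerSeries (FractionRing A)) ^ (μ + ν) *
        (PowerSeries.X * R) = PowerSeries.X ^ 2 * TT t₀ e * s ^ l *
        ((r : PowerSeries (FractionRing A)) * D (Ev t₀ s a) * Ev t₀ s b +
      ((m - r : ℕ) : PowerSeries (FractionRing A)) * Ev t₀ s a * D (Ev t₀ s b)) := by
      have e3 : PowerSeries.X ^ 2 * TT t₀ e * s ^ l *
        ((r : PowerSeries (FractionRing A)) * D (Ev t₀ s a) * Ev t₀ s b +
          ((m - r : ℕ) : PowerSeries (FractionRing A)) * Ev t₀ s a * D (Ev t₀ s b)) =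
          PowerSeries.X * (TT t₀ e * s ^ l *
        ((r : PowerSeries (FractionRing A)) * (PowerSeries.X * D (Ev t₀ s a)) * Ev t₀ s b +
          ((m - r : ℕ) : PowerSeries (FractionRing A)) * Ev t₀ s a *
            (PowerSeries.X * D (Ev t₀ s b)))) := by ring
      rw [e3, hXa, hXb, hR]
      rw [hα, hβ]
      ring
    rw [mul_sub, e1, e2, hrel, sub_self]
  have h3 := (mul_eq_zero.1 hkey).resolve_left (pow_ne_zero _ PowerSeries.X_ne_zero)
  have h4 := congrArg PowerSeries.constantCoeff (sub_eq_zero.1 h3)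
  rw [map_mul, map_mul, map_mul, map_mul, PowerSeries.constantCoeff_X, zero_mul, map_natCast,
    Ev_const t₀ x₀ s hs] at h4
  have hmK : (m : FractionRing A) ≠ 0 := by
    rw [← map_natCast φ]
    exact fun h0 => hm0 (hinj (by rw [h0, map_zero]))
  have h5 := (mul_eq_zero.1 ((mul_eq_zero.1 h4).resolve_right (mul_ne_zero hα0 hβ0))).resolve_left hmK
  exact hinj (by rw [h5, map_zero])

/-- one step -/
lemma stepV (m r na nb N : ℕ) (hr : 0 < r) (hrm : r < m) (hN : N + 1 = na + nb)
    (a b : A[X][X]) (ham : a.Monic) (hbm : b.Monic) (hna : a.natDegree = na)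
    (hnb : b.natDegree = nb) (t₀ x₀ : A) (a₁ b₁ : A[X]) (hNd : NodeC1 a b t₀ x₀ a₁ b₁)
    (u v : A[X][X]) (ρ : A[X]) (hρ : ρ ≠ 0)
    (huv : u * (a * b) + v * Lam m r a b (derivative a) (derivative b) = C ρ) (l : ℕ)
    (e : A[X]) (P S : A[X][X]) (hS : S.natDegree ≤ N)
    (h : (m : A[X][X]) * P * (a * b) + S * Lam m r a b (derivative a) (derivative b) =
      Polynomial.C ((X - Polynomial.C t₀) ^ 2 * e) * X ^ l * Lam m r a b (dt a) (dt b)) :
    ∃ P' S' : A[X][X], S'.natDegree ≤ N ∧
      (m : A[X][X]) * P' * (a * b) + S' * Lam m r a b (derivative a) (derivative b) =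
      Polynomial.C ((X - Polynomial.C t₀) * e) * X ^ l * Lam m r a b (dt a) (dt b) := by
  obtain ⟨ha0, hb0, hsep, hne⟩ := hNd
  have hm0 : (m : A) ≠ 0 := by
    have : m ≠ 0 := by omega
    exact_mod_cast this
  have hmr : ((m - r : ℕ) : A[X]) = m - r := by rw [Nat.cast_sub hrm.le]
  have hPv : (P.map (evalRingHom t₀)).eval x₀ = 0 :=
    value_zero m r hrm a b t₀ x₀ a₁ b₁ hm0 ha0 hb0 hne u v ρ hρ huv l e P S h
  set ev := evalRingHom t₀ with hev
  have ha1m : a₁.Monic := by
    have h1 : ((X - C x₀) * a₁).Monic := by rw [← ha0]; exact ham.map _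
    exact (monic_X_sub_C x₀).of_mul_monic_left h1
  have hb1m : b₁.Monic := by
    have h1 : ((X - C x₀) * b₁).Monic := by rw [← hb0]; exact hbm.map _
    exact (monic_X_sub_C x₀).of_mul_monic_left h1
  have hda : na = 1 + a₁.natDegree := by
    have h1 : (a.map ev).natDegree = na := by rw [ham.natDegree_map, hna]
    rw [ha0, (monic_X_sub_C x₀).natDegree_mul ha1m, natDegree_X_sub_C] at h1
    exact h1.symm
  have hdb : nb = 1 + b₁.natDegree := by
    have h1 : (b.map ev).natDegree = nb := by rw [hbm.natDegree_map, hnb]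
    rw [hb0, (monic_X_sub_C x₀).natDegree_mul hb1m, natDegree_X_sub_C] at h1
    exact h1.symm
  have hgd : ((X - C x₀) * (a₁ * b₁)).natDegree = N := by
    rw [(monic_X_sub_C x₀).natDegree_mul (ha1m.mul hb1m), ha1m.natDegree_mul hb1m,
      natDegree_X_sub_C]
    omega
  have hrel0 : (m : A[X]) * P.map ev * ((X - C x₀) * (a₁ * b₁)) +
      S.map ev * ((m : A[X]) * (a₁ * b₁) + (X - C x₀) * ((r : A[X]) * derivative a₁ * b₁ +
        ((m - r : ℕ) : A[X]) * a₁ * derivative b₁)) = 0 := by
    have h1 := congrArg (Polynomial.map ev) h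
    have hW : ev ((X - Polynomial.C t₀) ^ 2 * e) = 0 := by
      rw [hev]
      simp
    simp only [Lam, Polynomial.map_add, Polynomial.map_mul, Polynomial.map_natCast,
      ← derivative_map, map_C, hW, ha0, hb0, C_0, zero_mul] at h1
    simp only [derivative_mul, derivative_sub, derivative_X, derivative_C, sub_zero, one_mul] at h1
    have h2 : (X - C x₀) * ((m : A[X]) * P.map ev * ((X - C x₀) * (a₁ * b₁)) +
      S.map ev * ((m : A[X]) * (a₁ * b₁) + (X - C x₀) * ((r : A[X]) * derivative a₁ * b₁ +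
        ((m - r : ℕ) : A[X]) * a₁ * derivative b₁))) = 0 := by
      rw [← h1, hmr]
      ring
    exact (mul_eq_zero.1 h2).resolve_left (X_sub_C_ne_zero x₀)
  obtain ⟨σ, hσ, hPe⟩ := node_syz m r N hr hrm x₀ a₁ b₁ _ _ ha1m hb1m hgd hsep hne
    (natDegree_map_le.trans hS) hrel0
  have hσ0 : σ = 0 := by
    have h1 := congrArg (Polynomial.eval x₀) hPe
    simp only [eval_mul, eval_neg, eval_add, eval_sub, eval_X, eval_C, sub_self, zero_mul, add_zero,
      eval_natCast, hPv, mul_zero] at h1
    rw [eval_mul] at hne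
    have h2 := neg_eq_zero.1 h1.symm
    rcases mul_eq_zero.1 h2 with h3 | h3
    · exact h3
    · exact absurd h3 (mul_ne_zero hm0 hne)
  rw [hσ0, C_0, zero_mul] at hσ
  rw [hσ0, C_0, zero_mul, neg_zero] at hPe
  have hmX : (m : A[X]) ≠ 0 := by
    rw [← C_eq_natCast]
    exact C_ne_zero.2 hm0
  have hPe' : P.map ev = 0 := (mul_eq_zero.1 hPe).resolve_left hmX
  have hdiv : ∀ Q : A[X][X], Q.map ev = 0 → C (X - C t₀) ∣ Q := by
    intro Q hQ
    rw [C_dvd_iff_dvd_coeff]
    intro i
    rw [dvd_iff_isRoot]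
    have := congrArg (fun q => Polynomial.coeff q i) hQ
    rw [coeff_map, coeff_zero] at this
    exact this
  obtain ⟨P', hP'⟩ := hdiv P hPe'
  obtain ⟨S', hS'⟩ := hdiv S hσ
  have hX : (X - C t₀ : A[X]) ≠ 0 := X_sub_C_ne_zero t₀
  refine ⟨P', S', ?_, ?_⟩
  · rw [hS', natDegree_C_mul hX] at hS
    exact hS
  · have hCX : (C (X - C t₀) : A[X][X]) ≠ 0 := fun h0 => hX (C_eq_zero.1 h0)
    apply mul_left_cancel₀ hCX
    rw [hP', hS'] at h
    have e1 : (C ((X - C t₀) ^ 2 * e) : A[X][X]) = C (X - C t₀) * C ((X - C t₀) * e) := by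
      rw [← C_mul]
      congr 1
      ring
    rw [e1] at h
    linear_combination h

end

theorem v_LocC : V_LocC := by
  intro A _ _ _ m r na nb N hr hrm hN a b hG t₀ x₀ a₁ b₁ hNd
  obtain ⟨ham, hbm, hna, hnb, hsepF⟩ := hG
  have hm0 : (m : A) ≠ 0 := by
    have : m ≠ 0 := by omega
    exact_mod_cast this
  have habm : (a * b).Monic := ham.mul hbm
  have habd : (a * b).natDegree = N + 1 := by
    rw [ham.natDegree_mul hbm, hna, hnb, hN]
  set Lx := Lam m r a b (derivative a) (derivative b) with hLx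
  set Lt := Lam m r a b (dt a) (dt b) with hLt
  have hLxd : Lx.natDegree ≤ N :=
    natDegree_Lam_le m r na nb N hN a b _ _ hna.le hnb.le (natDegree_der a na hna)
      (natDegree_der b nb hnb)
  have hLtd : Lt.natDegree ≤ N :=
    natDegree_Lam_le m r na nb N hN a b _ _ hna.le hnb.le (natDegree_dt a ham na hna)
      (natDegree_dt b hbm nb hnb)
  -- the Bezout relation
  have hcop : IsCoprime ((a * b).map (algebraMap A[X] (FractionRing A[X])))
      (Lx.map (algebraMap A[X] (FractionRing A[X]))) := by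
    have : CharZero (FractionRing A[X]) :=
      charZero_of_injective_algebraMap (IsFractionRing.injective A[X] (FractionRing A[X]))
    rw [Polynomial.map_mul] at hsepF ⊢
    have h1 := cop_Lam m r hr hrm _ _ hsepF
    have h2 : Lx.map (algebraMap A[X] (FractionRing A[X])) =
        Lam m r (a.map (algebraMap A[X] (FractionRing A[X])))
          (b.map (algebraMap A[X] (FractionRing A[X])))
          (derivative (a.map (algebraMap A[X] (FractionRing A[X]))))
          (derivative (b.map (algebraMap A[X] (FractionRing A[X])))) := by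
      rw [hLx]
      simp [Lam, derivative_map]
    rw [h2]
    exact h1
  obtain ⟨u, v, ρ, hρ, huv⟩ := cop_clear _ _ hcop
  -- the ideal
  set I : Set A[X] := {d | ∀ l : Fin N, ∃ P S : A[X][X], S.natDegree ≤ N ∧
    (m : A[X][X]) * P * (a * b) + S * Lx = Polynomial.C d * X ^ (l : ℕ) * Lt} with hI
  have hstep : ∀ e : A[X], (X - C t₀) ^ 2 * e ∈ I → (X - C t₀) * e ∈ I := by
    intro e he l
    obtain ⟨P, S, hS, h⟩ := he l
    exact stepV m r na nb N hr hrm hN a b ham hbm hna hnb t₀ x₀ a₁ b₁ hNd u v ρ hρ huv l e P S hS h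
  have hrI : (m : A[X]) * ρ ∈ I := by
    intro l
    refine ⟨u * X ^ (l : ℕ) * Lt + (v * X ^ (l : ℕ) * Lt) /ₘ (a * b) * Lx,
      (m : A[X][X]) * ((v * X ^ (l : ℕ) * Lt) %ₘ (a * b)), ?_, ?_⟩
    · have h1 := natDegree_modByMonic_lt (v * X ^ (l : ℕ) * Lt) habm (by
        intro h0
        rw [h0, natDegree_one] at habd
        omega)
      have h2 : ((m : A[X][X]) * ((v * X ^ (l : ℕ) * Lt) %ₘ (a * b))).natDegree ≤
          ((v * X ^ (l : ℕ) * Lt) %ₘ (a * b)).natDegree := by
        rw [← C_eq_natCast]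
        exact natDegree_C_mul_le _ _
      omega
    · have h5 := modByMonic_add_div (v * X ^ (l : ℕ) * Lt) (a * b)
      have h6 : Polynomial.C ((m : A[X]) * ρ) = (m : A[X][X]) * (u * (a * b) + v * Lx) := by
        rw [huv, C_mul, C_eq_natCast]
      rw [h6]
      linear_combination ((m : A[X][X]) * Lx) * h5
  have hmρ : (m : A[X]) * ρ ≠ 0 := by
    refine mul_ne_zero ?_ hρ
    rw [← C_eq_natCast]
    exact C_ne_zero.2 hm0
  have hex : ∃ d : A[X], d ∈ I ∧ ¬ (X - C t₀) ^ 2 ∣ d := by
    have : ∀ n : ℕ, ∀ d : A[X], d ≠ 0 → d.natDegree ≤ n → d ∈ I →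
        ∃ d : A[X], d ∈ I ∧ ¬ (X - C t₀) ^ 2 ∣ d := by
      intro n
      induction n with
      | zero =>
        intro d hd0 hdn hd
        refine ⟨d, hd, fun ⟨e, he⟩ => ?_⟩
        have he0 : e ≠ 0 := by
          rintro rfl
          exact hd0 (by rw [he, mul_zero])
        have := ((monic_X_sub_C t₀).pow 2).natDegree_mul' he0
        rw [← he, natDegree_pow, natDegree_X_sub_C] at this
        omega
      | succ n ih =>
        intro d hd0 hdn hd
        by_cases hdv : (X - C t₀) ^ 2 ∣ d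
        · obtain ⟨e, he⟩ := hdv
          have he0 : e ≠ 0 := by
            rintro rfl
            exact hd0 (by rw [he, mul_zero])
          have k1 := ((monic_X_sub_C t₀).pow 2).natDegree_mul' he0
          rw [← he, natDegree_pow, natDegree_X_sub_C] at k1
          have k2 := (monic_X_sub_C t₀).natDegree_mul' he0
          rw [natDegree_X_sub_C] at k2
          exact ih ((X - C t₀) * e) (mul_ne_zero (X_sub_C_ne_zero t₀) he0) (by omega)
            (hstep e (he ▸ hd))
        · exact ⟨d, hd, hdv⟩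
    exact this _ _ hmρ le_rfl hrI
  obtain ⟨d, hd, hnd⟩ := hex
  have hfin : ∀ w : A[X], w.eval t₀ ≠ 0 → (X - C t₀) * w ∈ I →
      ∃ (w : A[X]) (P S : Fin N → A[X][X]), w.eval t₀ ≠ 0 ∧
      RelC m r N a b ((X - Polynomial.C t₀) * w) P S := by
    intro w hw hwI
    choose P S hS h using hwI
    refine ⟨w, P, S, hw, fun l => ⟨?_, hS l, h l⟩⟩
    by_cases hP : P l = 0
    · have := l.2
      rw [hP, natDegree_zero]
      omega
    · have hmP : (m : A[X][X]) * P l ≠ 0 := by
        refine mul_ne_zero ?_ hP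
        rw [← C_eq_natCast, ← C_eq_natCast]
        exact C_ne_zero.2 (C_ne_zero.2 hm0)
      have h1 : ((m : A[X][X]) * P l * (a * b)).natDegree = (P l).natDegree + (N + 1) := by
        rw [natDegree_mul hmP habm.ne_zero, habd]
        congr 1
        rw [← C_eq_natCast]
        refine natDegree_C_mul ?_
        rw [← C_eq_natCast]
        exact C_ne_zero.2 hm0
      have h2 : (m : A[X][X]) * P l * (a * b) =
          Polynomial.C ((X - C t₀) * w) * X ^ (l : ℕ) * Lt - S l * Lx := eq_sub_of_add_eq (h l)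
      have h3 : (Polynomial.C ((X - C t₀) * w) * X ^ (l : ℕ) * Lt).natDegree ≤ 2 * N := by
        refine natDegree_mul_le.trans ?_
        have h4 : (Polynomial.C ((X - C t₀) * w) * X ^ (l : ℕ) : A[X][X]).natDegree ≤ l :=
          natDegree_C_mul_X_pow_le _ _
        have := l.2
        omega
      have h5 : (S l * Lx).natDegree ≤ 2 * N := by
        refine natDegree_mul_le.trans ?_
        have := hS l
        omega
      have h7 : ((m : A[X][X]) * P l * (a * b)).natDegree ≤ 2 * N := by
        rw [h2]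
        exact (natDegree_sub_le _ _).trans (max_le h3 h5)
      omega
  by_cases hdr : d.eval t₀ = 0
  · obtain ⟨w, hw⟩ := dvd_iff_isRoot.2 hdr
    refine hfin w (fun h0 => hnd ?_) (hw ▸ hd)
    obtain ⟨w', hw'⟩ := dvd_iff_isRoot.2 h0
    exact ⟨w', by rw [hw, hw']; ring⟩
  · refine hfin d hdr fun l => ?_
    obtain ⟨P, S, hS, h⟩ := hd l
    refine ⟨C (X - C t₀) * P, C (X - C t₀) * S, ?_, ?_⟩
    · exact (natDegree_C_mul_le _ _).trans hS
    · rw [C_mul]
      linear_combination C (X - C t₀) * h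

end Pool.Agent.Helper82.VX
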